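import Mathlib

/-! Orders of vanishing of prolonged curves: the proximity formula. -/

set_option autoImplicit false

namespace Q43.MT

open Filter Topology

/-- order of `f - f(0)` at `0` -/
noncomputable def ord0 (f : ℂ → ℂ) : ℕ∞ := analyticOrderAt (fun t => f t - f 0) 0

lemma ord0_eq_deriv {f : ℂ → ℂ} (hf : AnalyticAt ℂ f 0) :
    ord0 f = analyticOrderAt (deriv f) 0 + 1 :=
  hf.analyticOrderAt_deriv_add_one.symm

lemma ord0_congr {f g : ℂ → ℂ} (h : ∀ᶠ t in 𝓝 (0 : ℂ), f t = g t) : ord0 f = ord0 g := by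
  apply analyticOrderAt_congr
  have h0 : f 0 = g 0 := h.self_of_nhds
  filter_upwards [h] with t ht
  rw [ht, h0]

lemma ord0_of_zero {f : ℂ → ℂ} (h : f 0 = 0) : ord0 f = analyticOrderAt f 0 := by
  unfold ord0
  simp [h]

lemma ord0_of_deriv_ne {f : ℂ → ℂ} (hf : AnalyticAt ℂ f 0) (h : deriv f 0 ≠ 0) : ord0 f = 1 := by
  rw [ord0_eq_deriv hf, (analyticOrderAt_eq_zero.2 (Or.inr h)), zero_add]

lemma ord0_ne_top {f : ℂ → ℂ} (h : ¬ ∀ᶠ t in 𝓝 (0 : ℂ), f t = f 0) : ord0 f ≠ ⊤ := by
  intro h1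
  rw [ord0, analyticOrderAt_eq_top] at h1
  exact h (h1.mono fun t ht => sub_eq_zero.1 ht)

lemma ord0_mul {f g h : ℂ → ℂ} (hf : AnalyticAt ℂ f 0) (hg : AnalyticAt ℂ g 0)
    (hh : AnalyticAt ℂ h 0) (he : ∀ᶠ t in 𝓝 (0 : ℂ), deriv f t = h t * deriv g t) :
    ord0 f = analyticOrderAt h 0 + ord0 g := by
  rw [ord0_eq_deriv hf, ord0_eq_deriv hg, ← add_assoc]
  congr 1
  rw [← analyticOrderAt_mul hh hg.deriv]
  exact analyticOrderAt_congr he

/-- The data of two regular lifts through the same point. -/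
theorem main {n k : ℕ} (c : ℕ → Fin n) (p : ℕ → Fin n → ℂ) (y z : ℕ → Fin n → ℂ → ℂ)
    (ya : ∀ j ≤ k, ∀ i, AnalyticAt ℂ (y j i) 0) (za : ∀ j ≤ k, ∀ i, AnalyticAt ℂ (z j i) 0)
    (yp : ∀ j ≤ k, ∀ i, y j i 0 = p j i) (zp : ∀ j ≤ k, ∀ i, z j i 0 = p j i)
    (yn : ∀ j < k, ¬ ∀ᶠ t in 𝓝 (0 : ℂ), y j (c j) t = y j (c j) 0)
    (zn : ∀ j < k, ¬ ∀ᶠ t in 𝓝 (0 : ℂ), z j (c j) t = z j (c j) 0)
    (yc : ∀ j < k, ∀ᶠ t in 𝓝 (0 : ℂ), y (j + 1) (c j) t = y j (c j) t)
    (zc : ∀ j < k, ∀ᶠ t in 𝓝 (0 : ℂ), z (j + 1) (c j) t = z j (c j) t)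
    (yd : ∀ j < k, ∀ i ≠ c j, ∀ᶠ t in 𝓝 (0 : ℂ),
      deriv (y j i) t = y (j + 1) i t * deriv (y j (c j)) t)
    (zd : ∀ j < k, ∀ i ≠ c j, ∀ᶠ t in 𝓝 (0 : ℂ),
      deriv (z j i) t = z (j + 1) i t * deriv (z j (c j)) t)
    (yr : ∀ j < k, (∀ i < k, j < i → c i ≠ c j ∧ p (i + 1) (c j) = 0) → deriv (y k (c j)) 0 ≠ 0)
    (zr : ∀ j < k, (∀ i < k, j < i → c i ≠ c j ∧ p (i + 1) (c j) = 0) → deriv (z k (c j)) 0 ≠ 0) :
    ∀ j < k, ord0 (y j (c j)) = ord0 (z j (c j)) := by
  -- strong downward induction on `j`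
  have key : ∀ d j, j < k → k ≤ j + d → ord0 (y j (c j)) = ord0 (z j (c j)) := by
    intro d
    induction d with
    | zero => intro j hj h; omega
    | succ d ih =>
      intro j hj hd
      -- levels `i` with `j < i ≤ k`
      have inner : ∀ e i, j < i → i ≤ k → k ≤ i + e →
          (∀ l < i, j < l → c l ≠ c j ∧ p (l + 1) (c j) = 0) →
          ord0 (y i (c j)) = ord0 (z i (c j)) := by
        intro e
        induction e with
        | zero =>
          intro i hji hik hke hact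
          have : i = k := by omega
          subst this
          rw [ord0_of_deriv_ne (ya i le_rfl _) (yr j hj hact),
            ord0_of_deriv_ne (za i le_rfl _) (zr j hj hact)]
        | succ e ihe =>
          intro i hji hik hke hact
          rcases hik.lt_or_eq with hlt | heq
          · have hm : ord0 (y i (c i)) = ord0 (z i (c i)) := ih i hlt (by omega)
            by_cases h1 : c i = c j
            · rw [← h1]; exact hm
            · have e1 := ord0_mul (ya i hik (c j)) (ya i hik (c i)) (ya (i + 1) hlt (c j))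
                (yd i hlt (c j) (Ne.symm h1))
              have e2 := ord0_mul (za i hik (c j)) (za i hik (c i)) (za (i + 1) hlt (c j))
                (zd i hlt (c j) (Ne.symm h1))
              by_cases h2 : p (i + 1) (c j) = 0
              · have h3 := ihe (i + 1) (by omega) hlt (by omega) (by
                  intro l hl hjl
                  rcases Nat.lt_succ_iff_lt_or_eq.1 hl with h | h
                  · exact hact l h hjl
                  · subst h; exact ⟨h1, h2⟩)
                rw [ord0_of_zero (by rw [yp (i + 1) hlt, h2]),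
                  ord0_of_zero (by rw [zp (i + 1) hlt, h2])] at h3
                rw [e1, e2, h3, hm]
              · have h4 : analyticOrderAt (y (i + 1) (c j)) 0 = 0 :=
                  analyticOrderAt_eq_zero.2 (Or.inr (by rw [yp (i + 1) hlt]; exact h2))
                have h5 : analyticOrderAt (z (i + 1) (c j)) 0 = 0 :=
                  analyticOrderAt_eq_zero.2 (Or.inr (by rw [zp (i + 1) hlt]; exact h2))
                rw [e1, e2, h4, h5, hm]
          · exact ihe i hji hik (by omega) hact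
      rw [← ord0_congr (yc j hj), ← ord0_congr (zc j hj)]
      exact inner (k - (j + 1)) (j + 1) (by omega) (by omega) (by omega)
        (fun l hl hjl => by omega)
  intro j hj
  exact key (k - j) j hj (by omega)

/-- the multiplicity is attained at the pivot -/
lemma iInf_eq {n : ℕ} (c : Fin n) (y z : Fin n → ℂ → ℂ) (ya : ∀ i, AnalyticAt ℂ (y i) 0)
    (za : ∀ i, AnalyticAt ℂ (z i) 0)
    (yd : ∀ i ≠ c, ∀ᶠ t in 𝓝 (0 : ℂ), deriv (y i) t = z i t * deriv (y c) t) :
    ⨅ i, ord0 (y i) = ord0 (y c) := by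
  apply le_antisymm (iInf_le _ c)
  refine le_iInf fun i => ?_
  by_cases h : i = c
  · rw [h]
  · rw [ord0_mul (ya i) (ya c) (za i) (yd i h)]
    exact le_add_self

end Q43.MT
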